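import Pool.Agent.LPK.Stmts

/-!
# The conditions for one vector (row LIN of squad LPK)

Problem MP_37fa12_co.
-/

set_option autoImplicit false

noncomputable section

open MeasureTheory Filter Topology
open scoped RealInnerProductSpace

namespace Pool.Agent.LPK.H81

variable {n : ℕ}

theorem ind_pos {p : Prop} (h : p) : ind p = 1 := by
  unfold ind
  rw [if_pos h]

theorem ind_neg {p : Prop} (h : ¬ p) : ind p = 0 := by
  unfold ind
  rw [if_neg h]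

theorem ind_congr {p q : Prop} (h : p ↔ q) : ind p = ind q := by
  rw [propext h]

theorem cg_zero (a : Fin n → ℤ) : Cg a 0 ↔ Evn a := by
  unfold Cg Evn
  simp

theorem zero_cg (a : Fin n → ℤ) : Cg 0 a ↔ Evn a := by
  unfold Cg Evn
  simp

theorem cg_self (a : Fin n → ℤ) : Cg a a := by
  intro i
  simp

theorem cg_neg (a : Fin n → ℤ) : Cg a (-a) := by
  intro i
  refine ⟨a i, ?_⟩
  rw [Pi.neg_apply]
  ring

theorem sg_zero (a : Fin n → ℤ) : sg a 0 = 1 := by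
  unfold sg
  simp

theorem zero_sg (a : Fin n → ℤ) : sg 0 a = 1 := by
  unfold sg
  simp

theorem pt_zero (b : Fin n → V n) : pt b 0 = 0 := by
  unfold pt
  simp

theorem pt_neg (b : Fin n → V n) (a : Fin n → ℤ) : pt b (-a) = -pt b a := by
  unfold pt
  simp

theorem G_zero : G (0 : V n) = 1 := by
  unfold G
  simp

theorem G_neg (x : V n) : G (-x) = G x := by
  unfold G
  rw [norm_neg]

theorem G_eq (x : V n) : G x = Real.exp (-‖x‖ ^ 2 / 2) := rfl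

/-- the function of a pair -/
def ph (F : ℝ → ℝ → ℝ → ℝ) (K : ℝ → ℝ → ℝ) (b : Fin n → V n) (a : Z2 n) : ℝ :=
  (F (‖pt b a.1‖ ^ 2) (‖pt b a.2‖ ^ 2) ⟪pt b a.1, pt b a.2⟫ +
    ind (Cg a.1 a.2) * K (‖pt b a.1‖ ^ 2) (‖pt b a.2‖ ^ 2)) * (G (pt b a.1) * G (pt b a.2))

theorem ph_sum (F : ℝ → ℝ → ℝ → ℝ) (K : ℝ → ℝ → ℝ) (b : Fin n → V n)
    (hF : ∀ A B H, F A B (-H) = F A B H) (hK : ∀ A B, K A B = K B A) (a : Fin n → ℤ) :
    ph F K b (a, 0) + ph F K b (0, a) + ph F K b (a, a) + ph F K b (a, -a) =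
      G (pt b a) * (F (‖pt b a‖ ^ 2) 0 0 + F 0 (‖pt b a‖ ^ 2) 0 +
        ind (Evn a) * (2 * K (‖pt b a‖ ^ 2) 0)) +
      G (pt b a) * G (pt b a) * (2 * F (‖pt b a‖ ^ 2) (‖pt b a‖ ^ 2) (‖pt b a‖ ^ 2) +
        2 * K (‖pt b a‖ ^ 2) (‖pt b a‖ ^ 2)) := by
  have z2 : ‖(0 : V n)‖ ^ 2 = 0 := by simp
  have e1 : ph F K b (a, 0) = (F (‖pt b a‖ ^ 2) 0 0 + ind (Evn a) * K (‖pt b a‖ ^ 2) 0) *
      (G (pt b a) * 1) := by
    unfold ph
    rw [pt_zero, ind_congr (cg_zero a), inner_zero_right, z2, G_zero]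
  have e2 : ph F K b (0, a) = (F 0 (‖pt b a‖ ^ 2) 0 + ind (Evn a) * K 0 (‖pt b a‖ ^ 2)) *
      (1 * G (pt b a)) := by
    unfold ph
    rw [pt_zero, ind_congr (zero_cg a), inner_zero_left, z2, G_zero]
  have e3 : ph F K b (a, a) = (F (‖pt b a‖ ^ 2) (‖pt b a‖ ^ 2) (‖pt b a‖ ^ 2) +
      1 * K (‖pt b a‖ ^ 2) (‖pt b a‖ ^ 2)) * (G (pt b a) * G (pt b a)) := by
    unfold ph
    rw [ind_pos (cg_self a), real_inner_self_eq_norm_sq]
  have e4 : ph F K b (a, -a) = (F (‖pt b a‖ ^ 2) (‖pt b a‖ ^ 2) (‖pt b a‖ ^ 2) +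
      1 * K (‖pt b a‖ ^ 2) (‖pt b a‖ ^ 2)) * (G (pt b a) * G (pt b a)) := by
    unfold ph
    rw [ind_pos (cg_neg a), pt_neg, norm_neg, G_neg, inner_neg_right, hF,
      real_inner_self_eq_norm_sq]
  rw [e1, e2, e3, e4, hK 0]
  ring

theorem K2_comm (L : List (ℕ × List ℤ)) (A B : ℝ) : K2 L A B = K2 L B A := by
  unfold K2
  congr 1
  apply List.map_congr_left
  intro d _
  ring

/-- an even vector is the double of a vector -/
theorem evn_half {a : Fin n → ℤ} (h : Evn a) : ∃ c : Fin n → ℤ, a = 2 • c := by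
  choose c hc using h
  refine ⟨c, funext fun i => ?_⟩
  rw [hc i]
  simp

theorem norm_even {μ : ℝ} {b : Fin n → V n} (hμ : Mu μ b)
    (h2 : ∀ a : Fin n → ℤ, pt b (2 • a) = (2 : ℝ) • pt b a) {a : Fin n → ℤ} (ha : a ≠ 0)
    (h : Evn a) : 4 * μ ≤ ‖pt b a‖ ^ 2 := by
  obtain ⟨c, rfl⟩ := evn_half h
  have hc : c ≠ 0 := by
    rintro rfl
    exact ha (by simp)
  have h1 := hμ c hc
  rw [h2, norm_smul, mul_pow]
  have : ‖(2 : ℝ)‖ ^ 2 = 4 := by norm_num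
  rw [this]
  linarith

/-- the common end -/
theorem fin_step {g E1 E2 E3 A : ℝ} {p : Prop} (hg : g = Real.exp (-A / 2))
    (h1 : ¬ p → E1 + Real.exp (-A / 2) * E2 ≤ 0)
    (h2 : p → E1 + E3 + Real.exp (-A / 2) * E2 ≤ 0) :
    g * (E1 + ind p * E3) + g * g * E2 ≤ 0 := by
  have hpos : 0 < g := hg ▸ Real.exp_pos _
  have e : g * (E1 + ind p * E3) + g * g * E2 = g * (E1 + ind p * E3 + g * E2) := by ring
  rw [e]
  refine mul_nonpos_of_nonneg_of_nonpos hpos.le ?_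
  by_cases h : p
  · rw [ind_pos h, hg, one_mul]
    exact h2 h
  · rw [ind_neg h, hg, zero_mul, add_zero]
    exact h1 h

theorem lin (h1 : EvaStmt) (h2 : DuaStmt) : LinStmt := by
  intro n κ D μ ν hC b b' hD hμ hν
  obtain ⟨-, -, -, -, -, hev⟩ := h1
  obtain ⟨hD', -, -, -, hb⟩ := h2 n κ b b' hD
  obtain ⟨-, -, -, -, hb'⟩ := h2 n κ⁻¹ b' b hD'
  have z2 : ‖(0 : V n)‖ ^ 2 = 0 := by simp
  have hLL : ∀ A B H, D.LL n A B (-H) = D.LL n A B H := by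
    intro A B H
    unfold CD.LL CD.K
    rw [hev _ _ _ _ hC.evP, neg_sq]
  have hSS : ∀ A B H, D.SS n A B (-H) = D.SS n A B H := by
    intro A B H
    unfold CD.SS CD.K'
    rw [hev _ _ _ _ hC.evQ, neg_sq]
  constructor
  · intro a ha
    have s1 := ph_sum (D.LL n) D.C b hLL (fun A B => K2_comm _ A B) a
    have e1 : ∀ z, fLL D b z = ph (D.LL n) D.C b z := fun _ => rfl
    have e2 : fLS κ D b b' (a, 0) = (D.LS n κ (‖pt b a‖ ^ 2) 0 0 +
        2 * rr n * 1 * D.X (‖pt b a‖ ^ 2) 0) * (G (pt b a) * 1) := by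
      unfold fLS
      rw [pt_zero, sg_zero, inner_zero_right, z2, G_zero]
    have e3 : fL D b a = (D.f1 n (‖pt b a‖ ^ 2) + ind (Evn a) * (2 * D.as (‖pt b a‖ ^ 2))) *
        G (pt b a) := rfl
    rw [e1, e1, e1, e1, s1, e2, e3]
    have f := fin_step (p := Evn a) (E1 := D.E1 n κ (‖pt b a‖ ^ 2))
      (E2 := D.E2 n (‖pt b a‖ ^ 2)) (E3 := D.E3 (‖pt b a‖ ^ 2)) (G_eq (pt b a))
      (fun _ => hC.l1 _ (hμ a ha)) (fun h => hC.l2 _ (norm_even hμ hb ha h))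
    refine le_of_eq_of_le ?_ f
    unfold CD.E1 CD.E2 CD.E3
    ring
  · intro a ha
    have s1 := ph_sum (D.SS n) D.C' b' hSS (fun A B => K2_comm _ A B) a
    have e1 : ∀ z, fSS D b' z = ph (D.SS n) D.C' b' z := fun _ => rfl
    have e2 : fLS κ D b b' (0, a) = (D.LS n κ 0 (‖pt b' a‖ ^ 2) 0 +
        2 * rr n * 1 * D.X 0 (‖pt b' a‖ ^ 2)) * (1 * G (pt b' a)) := by
      unfold fLS
      rw [pt_zero, zero_sg, inner_zero_left, z2, G_zero]
    have e3 : fS κ D b' a = (D.f1' n κ (‖pt b' a‖ ^ 2) +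
        ind (Evn a) * (2 * D.bt (‖pt b' a‖ ^ 2))) * G (pt b' a) := rfl
    rw [e1, e1, e1, e1, s1, e2, e3]
    have f := fin_step (p := Evn a) (E1 := D.E1' n κ (‖pt b' a‖ ^ 2))
      (E2 := D.E2' n (‖pt b' a‖ ^ 2)) (E3 := D.E3' (‖pt b' a‖ ^ 2)) (G_eq (pt b' a))
      (fun _ => hC.l3 _ (hν a ha)) (fun h => hC.l4 _ (norm_even hν hb' ha h))
    refine le_of_eq_of_le ?_ f
    unfold CD.E1' CD.E2' CD.E3'
    ring

end Pool.Agent.LPK.H81
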